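import Mathlib
import Pool.Agent.S13204

/-!
# Compatible metrics on the circle with prescribed quotient of span and semi-span

The metric `D` of `Pool.Agent.S13204` has span exactly `1/2` and semi-span exactly `1`; composing it
with concave functions gives all quotients in `[1/2, 1]`.
-/

set_option autoImplicit false

namespace Pool.Agent.H39.SP

open Pool.Agent.S13204

/-- A connected set of pairs on which the first coordinate avoids the point `-1/2`, with equal
projections, cannot stay at distance `> 1/2` from the diagonal. -/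
lemma no_arc' (Z : Set (T × T)) (hZ : IsConnected Z) (hproj : Prod.fst '' Z = Prod.snd '' Z)
    (havoid : ∀ p ∈ Z, p.1 ≠ ((-1/2 : ℝ) : T)) (hd : ∀ p ∈ Z, 1/2 < D p.1 p.2) : False := by
  have havoid2 : ∀ p ∈ Z, p.2 ≠ ((-1/2 : ℝ) : T) := by
    intro p hp
    have : p.2 ∈ Prod.snd '' Z := ⟨p, hp, rfl⟩
    rw [← hproj] at this
    obtain ⟨q, hq, hq2⟩ := this
    rw [← hq2]; exact havoid q hq
  have hgap : ∀ p ∈ Z, 1/20 < |φ p.1 - φ p.2| := by
    intro p hp
    have h1 := hd p hp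
    have h2 : D p.1 p.2 ≤ 10 * ‖p.1 - p.2‖ := min_le_left _ _
    have h3 := norm_le_φ p.1 p.2
    linarith
  have hcont : ContinuousOn (fun p : T × T => φ p.1 - φ p.2) Z := by
    intro p hp
    apply ContinuousAt.continuousWithinAt
    exact ((φ_cont (havoid p hp)).comp continuousAt_fst).sub
      ((φ_cont (havoid2 p hp)).comp continuousAt_snd)
  have hconn := hZ.isPreconnected.image _ hcont
  obtain ⟨p0, hp0⟩ := hZ.nonempty
  have hbdd1 : ∀ x : T, φ x ≤ 1/2 := fun x => by have := (φ_mem x).2; norm_num at this; linarith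
  have hsign : (∀ p ∈ Z, 1/20 < φ p.1 - φ p.2) ∨ (∀ p ∈ Z, 1/20 < φ p.2 - φ p.1) := by
    by_contra hcon
    push Not at hcon
    obtain ⟨⟨p, hp, hp'⟩, ⟨q, hq, hq'⟩⟩ := hcon
    have h1 : φ p.1 - φ p.2 ≤ 0 := by
      have := hgap p hp
      by_contra hc
      push Not at hc
      rw [abs_of_pos hc] at this
      linarith
    have h2 : 0 ≤ φ q.1 - φ q.2 := by
      have := hgap q hq
      by_contra hc
      push Not at hc
      rw [abs_of_neg hc] at this
      linarith
    have h0 : (0:ℝ) ∈ (fun p : T × T => φ p.1 - φ p.2) '' Z :=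
      hconn.Icc_subset ⟨p, hp, rfl⟩ ⟨q, hq, rfl⟩ ⟨h1, h2⟩
    obtain ⟨r, hr, hr'⟩ := h0
    have := hgap r hr
    simp only at hr'
    rw [hr'] at this
    norm_num at this
  set S : Set ℝ := φ '' (Prod.fst '' Z) with hS
  have hSne : S.Nonempty := ⟨φ p0.1, p0.1, ⟨p0, hp0, rfl⟩, rfl⟩
  have hSb : BddAbove S := ⟨1/2, by rintro _ ⟨x, _, rfl⟩; exact hbdd1 x⟩
  obtain ⟨s, hs, hs'⟩ := exists_lt_of_lt_csSup hSne (show sSup S - 1/20 < sSup S by linarith)
  rcases hsign with hpos | hneg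
  · obtain ⟨x, hx, rfl⟩ := hs
    rw [hproj] at hx
    obtain ⟨p, hp, rfl⟩ := hx
    have h1 := hpos p hp
    have h2 : φ p.1 ≤ sSup S := le_csSup hSb ⟨p.1, ⟨p, hp, rfl⟩, rfl⟩
    linarith
  · obtain ⟨x, hx, rfl⟩ := hs
    obtain ⟨p, hp, rfl⟩ := hx
    have h1 := hneg p hp
    have h2 : φ p.2 ≤ sSup S := le_csSup hSb ⟨p.2, by rw [hproj]; exact ⟨p, hp, rfl⟩, rfl⟩
    linarith

/-- The key separation: no connected set with equal projections on which `D > 1/2`. -/
lemma no_span' (Z : Set (T × T)) (hZ : IsConnected Z) (hproj : Prod.fst '' Z = Prod.snd '' Z)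
    (hd : ∀ p ∈ Z, 1/2 < D p.1 p.2) : False := by
  have hcl1 : IsClosed {p : T × T | h p.1 p.2 ≤ 1/20} :=
    isClosed_le continuous_h continuous_const
  have hcl2 : IsClosed {p : T × T | h p.2 p.1 ≤ 1/20} :=
    isClosed_le continuous_h' continuous_const
  have hcover : Z ⊆ {p : T × T | h p.1 p.2 ≤ 1/20} ∪ {p : T × T | h p.2 p.1 ≤ 1/20} := by
    intro p hp
    have h1 := hd p hp
    have h2 : D p.1 p.2 ≤ g p.1 p.2 := min_le_right _ _
    have h3 : 1/2 < g p.1 p.2 := lt_of_lt_of_le h1 h2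
    unfold g at h3
    rcases lt_max_iff.1 h3 with h4 | h4
    · exact absurd h4 (lt_irrefl _)
    · have h5 : min (h p.1 p.2) (h p.2 p.1) < 1/20 := by linarith
      rcases min_lt_iff.1 h5 with h6 | h6
      · left; exact h6.le
      · right; exact h6.le
  have hkey : ∀ x y : T, h x y ≤ 1/20 → x ≠ ((-1/2 : ℝ) : T) := by
    intro x y hxy hx
    have h1 : ‖x‖ - 7/20 ≤ h x y := le_trans (le_max_left _ _) (le_max_right _ _)
    rw [hx, norm_half] at h1
    rw [hx] at hxy
    linarith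
  have hdisj : ∀ x y : T, h x y ≤ 1/20 → h y x ≤ 1/20 → False := by
    intro x y h1 h2
    have h3 : ‖y - x - ((3/4 : ℝ) : T)‖ - 3/20 ≤ h x y := le_trans (le_max_right _ _) (le_max_right _ _)
    have h4 : ‖x - y - ((3/4 : ℝ) : T)‖ - 3/20 ≤ h y x := le_trans (le_max_right _ _) (le_max_right _ _)
    have h5 := norm_add_le (y - x - ((3/4 : ℝ) : T)) (x - y - ((3/4 : ℝ) : T))
    have h6 : (y - x - ((3/4 : ℝ) : T)) + (x - y - ((3/4 : ℝ) : T)) = ((-1/2 : ℝ) : T) := by
      have e1 : (y - x - ((3/4 : ℝ) : T)) + (x - y - ((3/4 : ℝ) : T))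
        = -(((3/4 : ℝ) : T) + ((3/4 : ℝ) : T)) := by abel
      rw [e1, ← AddCircle.coe_add, ← AddCircle.coe_neg]
      have e2 : (-(3/4 + 3/4) : ℝ) = -1/2 - 1 := by norm_num
      rw [e2, AddCircle.coe_sub]
      have e3 : ((1 : ℝ) : T) = 0 := AddCircle.coe_period 1
      rw [e3, sub_zero]
    rw [h6, norm_half] at h5
    linarith
  have hsub : Z ⊆ {p : T × T | h p.1 p.2 ≤ 1/20} ∨ Z ⊆ {p : T × T | h p.2 p.1 ≤ 1/20} := by
    by_contra hcon
    push Not at hcon
    obtain ⟨hn1, hn2⟩ := hcon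
    obtain ⟨p, hp, hp'⟩ := Set.not_subset.1 hn1
    obtain ⟨q, hq, hq'⟩ := Set.not_subset.1 hn2
    have hp2 := (hcover hp).resolve_left hp'
    have hq2 := (hcover hq).resolve_right hq'
    obtain ⟨r, hr, hr1, hr2⟩ := isPreconnected_closed_iff.1 hZ.isPreconnected _ _ hcl1 hcl2 hcover
      ⟨q, hq, hq2⟩ ⟨p, hp, hp2⟩
    exact hdisj r.1 r.2 hr1 hr2
  rcases hsub with h1 | h1
  · exact no_arc' Z hZ hproj (fun p hp => hkey _ _ (h1 hp)) hd
  · have hZ' : IsConnected (Prod.swap '' Z) := hZ.image _ continuous_swap.continuousOn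
    have e1 : Prod.fst '' (Prod.swap '' Z) = Prod.snd '' Z := by
      rw [Set.image_image]; rfl
    have e2 : Prod.snd '' (Prod.swap '' Z) = Prod.fst '' Z := by
      rw [Set.image_image]; rfl
    refine no_arc' (Prod.swap '' Z) hZ' ?_ ?_ ?_
    · rw [e1, e2, hproj]
    · rintro _ ⟨p, hp, rfl⟩
      exact hkey _ _ (h1 hp)
    · rintro _ ⟨p, hp, rfl⟩
      have := hd p hp
      rw [D_comm] at this
      exact this

/-- antipodal points are at distance at least `1/2` -/
lemma half_le_D (x : T) : 1/2 ≤ D x (x + ((1/2 : ℝ) : T)) := by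
  unfold D
  refine le_min ?_ (half_le_g _ _)
  have h1 : x - (x + ((1/2 : ℝ) : T)) = ((-1/2 : ℝ) : T) := by
    rw [sub_add_cancel_left, ← AddCircle.coe_neg]
    norm_num
  rw [h1, norm_half]
  norm_num

lemma D_nonneg (x y : T) : 0 ≤ D x y :=
  le_min (mul_nonneg (by norm_num) (norm_nonneg _)) (le_trans (by norm_num) (half_le_g x y))

lemma D_le_one (x y : T) : D x y ≤ 1 := (min_le_right _ _).trans (g_le_one _ _)

/-- the concave function with `0 ↦ 0`, `1/2 ↦ t`, `1 ↦ 1` -/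
noncomputable def f (t r : ℝ) : ℝ := min (2 * t * r) ((2 - 2 * t) * r + (2 * t - 1))

variable {t : ℝ}

lemma f_mono (h1 : 1/2 ≤ t) (h2 : t ≤ 1) {a b : ℝ} (hab : a ≤ b) : f t a ≤ f t b :=
  min_le_min (mul_le_mul_of_nonneg_left hab (by linarith))
    (by nlinarith [mul_le_mul_of_nonneg_left hab (show (0:ℝ) ≤ 2 - 2 * t by linarith)])

lemma f_zero (h1 : 1/2 ≤ t) : f t 0 = 0 := by
  unfold f
  rw [mul_zero, mul_zero, zero_add]
  exact min_eq_left (by linarith)

lemma f_half : f t (1/2) = t := by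
  unfold f
  have e1 : 2 * t * (1/2) = t := by ring
  have e2 : (2 - 2 * t) * (1/2) + (2 * t - 1) = t := by ring
  rw [e1, e2, min_self]

lemma f_one (h1 : 1/2 ≤ t) : f t 1 = 1 := by
  unfold f
  have e2 : (2 - 2 * t) * 1 + (2 * t - 1) = 1 := by ring
  rw [e2]
  exact min_eq_right (by linarith)

lemma f_add (h1 : 1/2 ≤ t) (_h2 : t ≤ 1) {a b : ℝ} (ha : 0 ≤ a) (hb : 0 ≤ b) :
    f t (a + b) ≤ f t a + f t b := by
  have k1 : f t (a + b) ≤ 2 * t * (a + b) := min_le_left _ _
  have k2 : f t (a + b) ≤ (2 - 2 * t) * (a + b) + (2 * t - 1) := min_le_right _ _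
  have k3 : (2 - 2 * t) * a ≤ 2 * t * a := mul_le_mul_of_nonneg_right (by linarith) ha
  have k4 : (2 - 2 * t) * b ≤ 2 * t * b := mul_le_mul_of_nonneg_right (by linarith) hb
  rcases min_choice (2 * t * a) ((2 - 2 * t) * a + (2 * t - 1)) with e1 | e1 <;>
  rcases min_choice (2 * t * b) ((2 - 2 * t) * b + (2 * t - 1)) with e2 | e2 <;>
  · have a1 : f t a = _ := e1
    have a2 : f t b = _ := e2
    rw [a1, a2]
    nlinarith

lemma f_pos (h1 : 1/2 ≤ t) (h2 : t ≤ 1) {a : ℝ} (ha : 0 < a) : 0 < f t a := by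
  unfold f
  refine lt_min (mul_pos (by linarith) ha) ?_
  rcases h1.lt_or_eq with h | h
  · have := mul_nonneg (show (0:ℝ) ≤ 2 - 2 * t by linarith) ha.le
    linarith
  · rw [← h]
    norm_num
    exact ha

/-- the metric `f t (D x y)` -/
noncomputable def E (t : ℝ) (x y : T) : ℝ := f t (D x y)

lemma E_self (h1 : 1/2 ≤ t) (x : T) : E t x x = 0 := by
  unfold E
  rw [D_self, f_zero h1]

lemma E_comm (x y : T) : E t x y = E t y x := by
  unfold E
  rw [D_comm]

lemma E_triangle (h1 : 1/2 ≤ t) (h2 : t ≤ 1) (x y z : T) : E t x z ≤ E t x y + E t y z :=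
  (f_mono h1 h2 (D_triangle x y z)).trans (f_add h1 h2 (D_nonneg _ _) (D_nonneg _ _))

lemma eq_of_E (h1 : 1/2 ≤ t) (h2 : t ≤ 1) (x y : T) (hxy : E t x y = 0) : x = y := by
  apply eq_of_D
  by_contra hne
  have := f_pos h1 h2 (lt_of_le_of_ne (D_nonneg x y) (Ne.symm hne))
  exact absurd hxy (ne_of_gt this)

lemma E_le (h2 : t ≤ 1) (x y : T) : E t x y ≤ 20 * ‖x - y‖ := by
  have k1 : E t x y ≤ 2 * t * D x y := min_le_left _ _
  have k2 : D x y ≤ 10 * ‖x - y‖ := min_le_left _ _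
  have k3 : 2 * t * D x y ≤ 2 * D x y := mul_le_mul_of_nonneg_right (by linarith) (D_nonneg _ _)
  linarith

lemma E_le_one (h1 : 1/2 ≤ t) (h2 : t ≤ 1) (x y : T) : E t x y ≤ 1 :=
  (f_mono h1 h2 (D_le_one x y)).trans (f_one h1).le

/-- the circle, without its metric -/
def C : Type := T

/-- the identity map -/
def toC : T ≃ C := Equiv.refl T

/-- the metric on `C` -/
@[reducible] noncomputable def metricC (h1 : 1/2 ≤ t) (h2 : t ≤ 1) : MetricSpace C where
  dist := E t
  dist_self := E_self h1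
  dist_comm := E_comm
  dist_triangle := E_triangle h1 h2
  eq_of_dist_eq_zero := fun {x y} hxy => eq_of_E h1 h2 x y hxy

/-- the identity map is a homeomorphism -/
lemma exists_homeo (h1 : 1/2 ≤ t) (h2 : t ≤ 1) :
    let _ := metricC h1 h2
    ∃ e : T ≃ₜ C, ∀ x y, dist (e x) (e y) = E t x y := by
  intro _
  have hc : Continuous toC := by
    have : LipschitzWith 20 toC := by
      apply LipschitzWith.of_dist_le_mul
      intro x y
      rw [dist_eq_norm]
      exact E_le h2 x y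
    exact this.continuous
  exact ⟨hc.homeoOfEquivCompactToT2, fun x y => rfl⟩

end Pool.Agent.H39.SP
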